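import Mathlib
import Pool.Agent.N988.EP.Main

/-!
# Critical first-passage percolation on hierarchical lattices

Authors: helper988 (statements, proofs on paper, assembly) and, for the parts in Lean, the helpers
252, 283, 362, 371, 391, 409, 527, 530, 823 and 942.
-/

open MeasureTheory Filter
open scoped Topology
open Pool.Agent.N988.EA Pool.Agent.N988.EC Pool.Agent.N988.EP

namespace Pool.Agent.Results.MP_477c23_pr.HierarchicalCriticalPassage

/-- First-passage percolation with the weights `0` (probability `p`) and `1` on the hierarchical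
(diamond, Migdal-Kadanoff) lattices `H n` with `b ≥ 2` branches, of length `2 ^ n` and dimension
`1 + log_2 b`: there is a critical probability `pc`, and at `pc` the mean first-passage time from an
edge to the two ends of `H n` is at most `C n` for every edge, and at least `c n` in the mean over
the edges: it is of the order of the logarithm of the distance. -/
theorem result (b : ℕ) (hb : 2 ≤ b) : ∃ pc : ℝ, 0 < pc ∧ pc < 1 ∧
    (∀ p : ℝ, 0 ≤ p → p < pc →
      Tendsto (fun n : ℕ => (iid (coin (1 - p)) b n).real {w | across w = 0}) atTop (𝓝 0)) ∧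
    (∀ p : ℝ, pc < p → p ≤ 1 →
      Tendsto (fun n : ℕ => (iid (coin (1 - p)) b n).real {w | across w = 0}) atTop (𝓝 1)) ∧
    ∃ c C : ℝ, 0 < c ∧ ∀ n : ℕ, 2 ≤ n →
      (∀ e : Edge b n, ∫ w, (far w e : ℝ) ∂(iid (coin (1 - pc)) b n) ≤ C * n) ∧
      c * n ≤ (∑ e : Edge b n, ∫ w, (far w e : ℝ) ∂(iid (coin (1 - pc)) b n)) /
        Fintype.card (Edge b n) :=
  k_FP b hb

end Pool.Agent.Results.MP_477c23_pr.HierarchicalCriticalPassage
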